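import Pool.Agent.H23.RDD.Targets

set_option autoImplicit false

/-!
# Row FP of the board rdd_modules: the product formula step with a Frobenius substitution
-/

namespace Pool.Agent.H32.RDD

open Pool.Agent.H23.RDD Pool.Agent.H24.RD NumberField Height Finset Polynomial

theorem fp_na {M : Type} [Field M] [NumberField M] (v : FinitePlace M) :
    IsNonarchimedean v.1 := fun x y => FinitePlace.add_le v x y

theorem max_rpow (a k : ℝ) (ha : 0 ≤ a) (hk : 0 < k) : (max a 1) ^ k = max (a ^ k) 1 := by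
  rcases le_total a 1 with h | h
  · rw [max_eq_right h, max_eq_right, Real.one_rpow]
    exact Real.rpow_le_one ha h hk.le
  · rw [max_eq_left h, max_eq_left]
    exact Real.one_le_rpow h hk.le

theorem pf_FP : T_POW → T_PF → T_FR1 → T_RS → T_LB → T_FP := by
  intro hPOW hPF hFR1 hRS hLB K M M' _ _ _ _ _ _ _ _ ℓ hℓ d hd N' hN' ζ hζ htop
  obtain ⟨σ, hσ⟩ := hFR1 K ℓ hℓ M N' hN' ζ hζ htop
  refine ⟨σ, ?_⟩
  intro f hf β hβ ι _ hι z hz
  set f0 := Module.finrank ℚ K with hf0
  have hf00 : 0 < f0 := Module.finrank_pos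
  set e := f0.factorial with he
  by_cases hUW : ∃ j, (β ^ (ℓ ^ e)) ^ (ℓ ^ (f0 * d + d + 1)) = (z j) ^ (ℓ ^ (f0 * d + d + 1))
  · exact Or.inl hUW
  · right
    push Not at hUW
    have h1 := hPF M' ℓ hℓ ι (fun _ => (β ^ (ℓ ^ e)) ^ (ℓ ^ (f0 * d + d + 1)))
      (fun j => (z j) ^ (ℓ ^ (f0 * d + d + 1))) hUW (d + 1) (by
        intro w hw
        obtain ⟨v, k, hk, hvk⟩ := hRS M M' w
        have hwl : w.1 (ℓ : M') = (v.1 (ℓ : M)) ^ k := by
          rw [← hvk, map_natCast (algebraMap M M')]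
        have hv0 : 0 ≤ v.1 (ℓ : M) := v.1.nonneg _
        have hv : v.1 (ℓ : M) < 1 := by
          by_contra hcon
          push Not at hcon
          have := Real.one_le_rpow hcon hk.le
          rw [← hwl] at this
          linarith
        have hℓM' : (ℓ : M') ≠ 0 := by exact_mod_cast hℓ.ne_zero
        have hw0 : 0 < w.1 (ℓ : M') := w.1.pos hℓM'
        set ε : ℝ := w.1 (ℓ : M') ^ (1 / (f0 : ℝ)) with hε
        have hf0R : (0 : ℝ) < f0 := by exact_mod_cast hf00
        have hf1R : (1 : ℝ) ≤ f0 := by exact_mod_cast hf00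
        have hε0 : 0 < ε := Real.rpow_pos_of_pos hw0 _
        have hε1 : ε < 1 := Real.rpow_lt_one hw0.le hw (by positivity)
        have hwε : w.1 (ℓ : M') ≤ ε := by
          have h3 : w.1 (ℓ : M') ^ (1 : ℝ) ≤ w.1 (ℓ : M') ^ (1 / (f0 : ℝ)) := by
            apply Real.rpow_le_rpow_of_exponent_ge hw0 hw.le
            rw [div_le_one hf0R]
            exact hf1R
          rwa [Real.rpow_one] at h3
        obtain ⟨j, hj⟩ := hLB M M' w.1 (fp_na w) ℓ e hℓ (σ : M →+* M) ε hε0 hε1 hwε (by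
          intro x
          have h3 := hσ v hv x
          have hp0 : 0 ≤ v.1 (ℓ : M) ^ (1 / (f0 : ℝ)) := Real.rpow_nonneg hv0 _
          have hm1 : 0 ≤ max (v.1 (σ x)) 1 := le_trans zero_le_one (le_max_right _ _)
          have hm2 : 0 ≤ max (v.1 (x ^ (ℓ ^ e))) 1 := le_trans zero_le_one (le_max_right _ _)
          have h4 := Real.rpow_le_rpow (v.1.nonneg _) h3 hk.le
          rw [← hvk, Real.mul_rpow hp0 (mul_nonneg hm1 hm2), Real.mul_rpow hm1 hm2,
            max_rpow _ k (v.1.nonneg _) hk, max_rpow _ k (v.1.nonneg _) hk, ← hvk, ← hvk,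
            ← Real.rpow_mul hv0, mul_comm (1 / (f0 : ℝ)) k, Real.rpow_mul hv0, ← hwl, map_sub,
            map_pow] at h4
          exact h4) d hd f hf β hβ ι hι z hz
        refine ⟨j, ?_⟩
        have hdR : (0 : ℝ) < d := by exact_mod_cast hd
        have h5 : ε ^ (1 / (d : ℝ)) = w.1 (ℓ : M') ^ (1 / ((f0 * d : ℕ) : ℝ)) := by
          rw [hε, ← Real.rpow_mul hw0.le]
          congr 1
          push_cast
          field_simp
        rw [h5] at hj
        have h6 := hPOW M' w.1 (fp_na w) ℓ hℓ hw (f0 * d) (Nat.mul_pos hf00 hd) _ _ hj (d + 1)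
        exact h6)
    have hℓR : Real.log 2 ≤ Real.log ℓ :=
      Real.log_le_log (by norm_num) (by exact_mod_cast hℓ.two_le)
    have hlog2 : 0 < Real.log 2 := Real.log_pos one_lt_two
    have hD : (0 : ℝ) ≤ Module.finrank ℚ M' := Nat.cast_nonneg _
    have hιR : (Fintype.card ι : ℝ) ≤ d := by exact_mod_cast hι
    refine le_trans ?_ h1
    apply mul_le_mul_of_nonneg_left _ hD
    push_cast
    nlinarith

end Pool.Agent.H32.RDD
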