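import Pool.Agent.H23.RDD.Targets

set_option autoImplicit false

/-!
# Row FT of the board rdd_modules: the field generated by the conjugates
-/

namespace Pool.Agent.H32.RDD

open Pool.Agent.H23.RDD Pool.Agent.H24.RD NumberField Height Finset Polynomial

theorem pf_FT : T_FT := by
  classical
  intro F Ω _ _ _ _ _ _ E hE d β hβ hCj
  have : IsAlgClosure F Ω := ⟨inferInstance, inferInstance⟩
  have : Normal F Ω := IsAlgClosure.normal F Ω
  have : IsGalois F Ω := {}
  have : Normal E Ω := Normal.tower_top_of_normal F E Ω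
  have hint : IsIntegral E β := Normal.isIntegral inferInstance β
  have hintF : IsIntegral F β := Normal.isIntegral inferInstance β
  set f := minpoly E β with hf
  have hfm : f.Monic := minpoly.monic hint
  have hfi : Irreducible f := minpoly.irreducible hint
  have hfs : f.Separable := hfi.separable
  have hsp : (f.map (algebraMap E Ω)).Splits := IsAlgClosed.splits _
  set s : Finset Ω := (f.map (algebraMap E Ω)).roots.toFinset with hs
  have hmem : ∀ x, x ∈ s ↔ aeval x f = 0 := by
    intro x
    rw [hs, Multiset.mem_toFinset, mem_roots (hfm.map _).ne_zero, IsRoot.def, eval_map_algebraMap]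
  have hconj : ∀ x ∈ s, ∃ σ : Ω ≃ₐ[F] Ω, (∀ z ∈ E, σ z = z) ∧ σ β = x := by
    intro x hx
    rw [hmem] at hx
    obtain ⟨σ, hσ⟩ := minpoly.exists_algEquiv_of_root' (Algebra.IsAlgebraic.isAlgebraic β) hx
    refine ⟨σ.restrictScalars F, ?_, ?_⟩
    · intro z hz
      exact σ.commutes ⟨z, hz⟩
    · exact hσ
  have hβs : β ∈ s := (hmem β).mpr (minpoly.aeval E β)
  set L : IntermediateField F Ω := E ⊔ IntermediateField.adjoin F {β} with hL
  have : FiniteDimensional F (IntermediateField.adjoin F {β}) :=
    IntermediateField.adjoin.finiteDimensional hintF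
  have : FiniteDimensional F L := IntermediateField.finiteDimensional_sup _ _
  set M : IntermediateField F Ω := IntermediateField.normalClosure F L Ω with hM
  have hLM : L ≤ M := IntermediateField.le_normalClosure L
  have hMfd : FiniteDimensional F M := normalClosure.is_finiteDimensional F L Ω
  have hMn : Normal F M := normalClosure.normal F L Ω
  have hst : ∀ (τ : Ω ≃ₐ[F] Ω), ∀ x ∈ M, τ x ∈ M := by
    intro τ x hx
    have h1 := (IntermediateField.normal_iff_forall_map_le (K := M)).mp hMn (τ : Ω →ₐ[F] Ω)
    exact h1 ⟨x, hx, rfl⟩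
  refine ⟨M, f, s, hMfd, le_sup_left.trans hLM, ?_, hβs, ?_, hfm, ?_, hst⟩
  · obtain ⟨s0, hs0, h0⟩ := hCj
    refine le_trans (card_le_card ?_) hs0
    intro x hx
    obtain ⟨σ, h1, h2⟩ := hconj x hx
    rw [← h2]
    exact h0 σ h1
  · intro x hx
    obtain ⟨σ, h1, h2⟩ := hconj x hx
    refine ⟨?_, ?_, σ, h1, h2⟩
    · rw [← h2]
      apply hst
      apply hLM
      apply (le_sup_right : _ ≤ L)
      exact IntermediateField.mem_adjoin_simple_self F β
    · rw [← h2]
      exact (map_ne_zero σ).mpr hβ
  · have hnd : (f.map (algebraMap E Ω)).roots.Nodup := nodup_roots (hfs.map)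
    have h1 := hsp.eq_prod_roots_of_monic (hfm.map _)
    rw [h1]
    rw [Finset.prod_eq_multiset_prod]
    rw [hs, Multiset.toFinset_val, hnd.dedup]

end Pool.Agent.H32.RDD
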