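import Pool.Agent.H23.RDD.Targets

set_option autoImplicit false

/-!
# Row MON of the board rdd_modules: level fields may be enlarged
-/

namespace Pool.Agent.H32.RDD

open Pool.Agent.H23.RDD Pool.Agent.H24.RD NumberField Height Finset Polynomial

theorem pf_MON : T_LVB → T_MON := by
  intro hLVB F Ω _ _ _ _ _ _ r γ hγ N K N₁ K₁ d hN hK hNN hKK hKN hN₁ α
  have hle : Lv F Ω γ N K ≤ Lv F Ω γ N₁ K₁ :=
    (hLVB F Ω r γ hγ N K hN hK).2.2.2.2.2 N₁ K₁ hNN hKK hKN hN₁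
  have hCj : ∀ (k : ℕ) (β : Ω), Cj F Ω (Lv F Ω γ N K) k β → Cj F Ω (Lv F Ω γ N₁ K₁) k β := by
    rintro k β ⟨s, hs, h⟩
    exact ⟨s, hs, fun σ hσ => h σ fun z hz => hσ z (hle hz)⟩
  refine ⟨fun k => hCj k α, ?_⟩
  rintro ⟨β, hβ, hc, hr, g, hg, hα⟩
  exact ⟨β, hβ, hCj d β hc, fun σ hσ => hr σ fun z hz => hσ z (hle hz), g, hg, hα⟩

end Pool.Agent.H32.RDD
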